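import Pool.Agent.R976.TailRatioLaw

set_option autoImplicit false

open MeasureTheory Set

namespace Pool.Agent.Results.MP_966169_pr.MeanVersion

open Pool.Agent.R976.TR

/-- **Q2.** The mean version is false: there is a law with finite mean (on `(0, ∞)` with density
`(1 + t) exp (-t - t² / 2)`) with `R(z) < 2 z / 𝔼 X` for all `z > 0`. But it holds up to a
constant: every law of the problem with finite mean admits `z > 0` with `R(z) ≥ (1 / 16) z / 𝔼 X`. -/
theorem result :
    (∃ μ : Measure ℝ, Admissible μ ∧ Integrable (fun x : ℝ => x) μ ∧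
      ∀ z : ℝ, 0 < z → R μ z < 2 * z / ∫ x, x ∂μ) ∧
    (∀ μ : Measure ℝ, Admissible μ → Integrable (fun x : ℝ => x) μ →
      ∃ z : ℝ, 0 < z ∧ 1 / 16 * z / ∫ x, x ∂μ ≤ R μ z) :=
  ⟨⟨law, law_admissible, law_integrable, law_mean_ratio⟩, fun _ h hi => exists_large_mean h hi⟩

end Pool.Agent.Results.MP_966169_pr.MeanVersion
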