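import Pool.Agent.R976.TailRatioLaw

set_option autoImplicit false

open MeasureTheory Set

namespace Pool.Agent.Results.MP_966169_pr.MedianVersion

open Pool.Agent.R976.TR

/-- **Q1.** The median version is false: there is a law (on `(0, ∞)` with density
`(1 + t) exp (-t - t² / 2)`) with `R(z) < (2 log 2) z / med(X)` for all `z > 0`. But it holds up to a
constant: every law of the problem admits `z > 0` with `R(z) ≥ (1 / 8) z / med(X)`. -/
theorem result :
    (∃ μ : Measure ℝ, Admissible μ ∧
      ∀ z : ℝ, 0 < z → R μ z < 2 * Real.log 2 * z / med μ) ∧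
    (∀ μ : Measure ℝ, Admissible μ → ∃ z : ℝ, 0 < z ∧ 1 / 8 * z / med μ ≤ R μ z) :=
  ⟨⟨law, law_admissible, law_median⟩, fun _ h => exists_large h⟩

end Pool.Agent.Results.MP_966169_pr.MedianVersion
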